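import Pool.Agent.Helper58.Orb.Iso

/-!
The tree data for `F_d` and for `(ℤ/2)^{*n}`.
-/

namespace Pool.Agent.Helper58.Orb

section General

variable {G : Type} [Group G] {S : Set G} {D : Type}

/-- `wordLen` is given by a length function which is realised by lists and which increases by at
most one under left multiplication with generators. -/
theorem wordLen_eq_of (dir : D → G) (hS : Set.range dir = S) (len : G → ℕ)
    (h1 : len 1 = 0) (hstep : ∀ s g, len (dir s * g) ≤ len g + 1)
    (hlist : ∀ g, ∃ l : List G, (∀ a ∈ l, a ∈ S) ∧ l.prod = g ∧ l.length = len g) (g : G) :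
    wordLen S g = len g := by
  unfold wordLen
  apply le_antisymm
  · obtain ⟨l, h2, h3, h4⟩ := hlist g
    rw [← h4]
    exact iInf₂_le (f := fun (l : List G) (_ : (∀ a ∈ l, a ∈ S) ∧ l.prod = g) => (l.length : ℕ∞))
      l ⟨h2, h3⟩
  · refine le_iInf₂ fun l hl => ?_
    obtain ⟨h2, rfl⟩ := hl
    have : len l.prod ≤ l.length := by
      induction l with
      | nil => simp [h1]
      | cons a l ih =>
        have ha : a ∈ Set.range dir := by rw [hS]; exact h2 a (by simp)
        obtain ⟨s, rfl⟩ := ha
        rw [List.prod_cons, List.length_cons]
        have h3 := ih fun a ha => h2 a (by simp [ha])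
        have h4 := hstep s l.prod
        omega
    exact_mod_cast this

end General

section Free

variable {d : ℕ}

/-- The direction `a_i^{±1}`. -/
def fdir (s : Fin d × Bool) : FreeGroup (Fin d) := FreeGroup.mk [s]

theorem toWord_fdir (s : Fin d × Bool) : (fdir s).toWord = [s] := by
  unfold fdir
  rw [FreeGroup.toWord_mk]
  simp

theorem fdir_inj : Function.Injective (fdir : Fin d × Bool → FreeGroup (Fin d)) := by
  intro s t h
  have := congrArg FreeGroup.toWord h
  rw [toWord_fdir, toWord_fdir] at this
  simpa using this

theorem fdir_inv (s : Fin d × Bool) : fdir (s.1, !s.2) = (fdir s)⁻¹ := by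
  unfold fdir
  rw [FreeGroup.inv_mk]
  rfl

theorem range_fdir : Set.range (fdir : Fin d × Bool → FreeGroup (Fin d)) = freeGens d := by
  ext g
  constructor
  · rintro ⟨⟨i, b⟩, rfl⟩
    refine ⟨i, ?_⟩
    cases b
    · right
      have := fdir_inv (i, true)
      simpa [fdir, FreeGroup.of] using this
    · left; rfl
  · rintro ⟨i, rfl | rfl⟩
    · exact ⟨(i, true), rfl⟩
    · exact ⟨(i, false), by
        have := fdir_inv (i, true)
        simpa [fdir, FreeGroup.of] using this⟩

theorem norm_fdir_mul (s : Fin d × Bool) (g : FreeGroup (Fin d))
    (h : g.toWord.head? ≠ some (s.1, !s.2)) : (fdir s * g).norm = g.norm + 1 := by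
  have h1 : (fdir s * g).toWord = s :: g.toWord := by
    rw [FreeGroup.toWord_mul, toWord_fdir, List.singleton_append, FreeGroup.reduce.cons,
      FreeGroup.reduce_toWord]
    rcases hw : g.toWord with _ | ⟨a, l⟩
    · rfl
    · have : ¬ (s.1 = a.1 ∧ s.2 = !a.2) := by
        rintro ⟨h2, h3⟩
        apply h
        rw [hw]
        simp only [List.head?_cons, Option.some.injEq]
        ext
        · simp [h2]
        · simp [h3]
      simp [this]
  unfold FreeGroup.norm
  rw [h1, List.length_cons]

/-- The tree data of the free group. -/
def freeTree (d : ℕ) : TreeData (FreeGroup (Fin d)) (freeGens d) (Fin d × Bool) where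
  dir := fdir
  inv s := (s.1, !s.2)
  len := FreeGroup.norm
  inj := fdir_inj
  range_dir := range_fdir
  dir_inv s := fdir_inv s
  dir_ne_one s h := by
    have := congrArg FreeGroup.toWord h
    rw [toWord_fdir] at this
    simp at this
  wordLen_eq g := by
    refine wordLen_eq_of fdir range_fdir FreeGroup.norm FreeGroup.norm_one ?_ ?_ g
    · intro s g
      have h1 := FreeGroup.norm_mul_le (fdir s) g
      have h2 : (fdir s).norm = 1 := by
        unfold FreeGroup.norm; rw [toWord_fdir]; rfl
      omega
    · intro g
      refine ⟨g.toWord.map fdir, ?_, ?_, ?_⟩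
      · intro a ha
        rw [List.mem_map] at ha
        obtain ⟨s, _, rfl⟩ := ha
        rw [← range_fdir]
        exact ⟨s, rfl⟩
      · have : ∀ w : List (Fin d × Bool), (w.map fdir).prod = FreeGroup.mk w := by
          intro w
          induction w with
          | nil => rfl
          | cons a w ih =>
            rw [List.map_cons, List.prod_cons, ih]
            rfl
        rw [this, FreeGroup.mk_toWord]
      · rw [List.length_map]; rfl
  up g s s' hss := by
    by_cases h : g.toWord.head? = some (s.1, !s.2)
    · right
      rw [norm_fdir_mul]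
      rw [h]
      intro h2
      apply hss
      have h3 := Option.some.inj h2
      have h4 := Prod.mk.inj h3
      exact Prod.ext h4.1 (by simpa using h4.2)
    · left
      rw [norm_fdir_mul s g h]

end Free

section Involutions

open Monoid.CoprodI

variable {n : ℕ}

/-- The nontrivial element of the `j`-th copy. -/
abbrev tau : Multiplicative (ZMod 2) := Multiplicative.ofAdd 1

theorem tau_ne_one : tau ≠ 1 := by decide

theorem eq_tau {m : Multiplicative (ZMod 2)} (h : m ≠ 1) : m = tau := by
  revert h
  revert m
  decide

theorem tau_mul_tau : tau * tau = 1 := by decide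

/-- The generator `s_j`. -/
def gdir (j : Fin n) : Gam n :=
  of (M := fun _ : Fin n => Multiplicative (ZMod 2)) (i := j) tau

theorem gdir_mul_self (j : Fin n) : gdir j * gdir j = 1 := by
  unfold gdir
  rw [← map_mul, tau_mul_tau, map_one]

abbrev GWord (n : ℕ) := Word (fun _ : Fin n => Multiplicative (ZMod 2))

/-- The length of the reduced word. -/
def glen (g : Gam n) : ℕ := (Word.equiv g).toList.length

theorem equiv_mul (a g : Gam n) :
    (Word.equiv (a * g) : GWord n) = a • (Word.equiv g : GWord n) := by
  show (a * g) • (Word.empty : GWord n) = a • (g • (Word.empty : GWord n))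
  rw [mul_smul]

theorem length_smul_of_ne {j : Fin n} {w : GWord n} (h : w.fstIdx ≠ some j) :
    (gdir j • w).toList.length = w.toList.length + 1 := by
  unfold gdir
  rw [← Word.cons_eq_smul (h1 := h) (h2 := tau_ne_one)]
  rfl

theorem length_smul_le (j : Fin n) (w : GWord n) :
    (gdir j • w).toList.length ≤ w.toList.length + 1 := by
  by_cases h : w.fstIdx = some j
  · induction w using Word.consRecOn with
    | empty => simp [Word.fstIdx] at h
    | cons i m w h1 h2 _ =>
      rw [Word.fstIdx_cons, Option.some.injEq] at h
      subst h
      have hm : m = tau := eq_tau h2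
      subst hm
      rw [Word.cons_eq_smul]
      change (gdir i • (gdir i • w)).toList.length ≤ _
      rw [← mul_smul, gdir_mul_self, one_smul]
      have h3 := length_smul_of_ne h1
      unfold gdir at h3
      rw [h3]
      omega
  · rw [length_smul_of_ne h]

theorem gdir_inj : Function.Injective (gdir : Fin n → Gam n) := by
  intro i j h
  have h1 : (Word.equiv (gdir i) : GWord n).fstIdx = some i := by
    have : (Word.equiv (gdir i) : GWord n) = gdir i • (Word.empty : GWord n) := rfl
    rw [this]
    unfold gdir
    rw [← Word.cons_eq_smul (h1 := by simp [Word.fstIdx]) (h2 := tau_ne_one), Word.fstIdx_cons]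
  have h2 : (Word.equiv (gdir j) : GWord n).fstIdx = some j := by
    have : (Word.equiv (gdir j) : GWord n) = gdir j • (Word.empty : GWord n) := rfl
    rw [this]
    unfold gdir
    rw [← Word.cons_eq_smul (h1 := by simp [Word.fstIdx]) (h2 := tau_ne_one), Word.fstIdx_cons]
  rw [h, h2] at h1
  exact (Option.some.inj h1).symm

theorem glen_one : glen (1 : Gam n) = 0 := by
  unfold glen
  have : (Word.equiv (1 : Gam n) : GWord n) = (1 : Gam n) • (Word.empty : GWord n) := rfl
  rw [this, one_smul]
  rfl

/-- The tree data of `(ℤ/2)^{*n}`. -/
def gamTree (n : ℕ) : TreeData (Gam n) (gamGens n) (Fin n) where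
  dir := gdir
  inv := id
  len := glen
  inj := gdir_inj
  range_dir := rfl
  dir_inv j := (inv_eq_of_mul_eq_one_left (gdir_mul_self j)).symm
  dir_ne_one j h := by
    have h1 : glen (gdir j * 1 : Gam n) = 1 := by
      unfold glen
      rw [equiv_mul, length_smul_of_ne]
      · exact congrArg (fun k => k + 1) glen_one
      · have : (Word.equiv (1 : Gam n) : GWord n) = Word.empty := by
          show (1 : Gam n) • (Word.empty : GWord n) = _
          rw [one_smul]
        rw [this]; simp [Word.fstIdx]
    rw [mul_one, h, glen_one] at h1
    omega
  wordLen_eq g := by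
    refine wordLen_eq_of gdir rfl glen glen_one ?_ ?_ g
    · intro s g
      unfold glen
      rw [equiv_mul]
      exact length_smul_le s _
    · intro g
      refine ⟨(Word.equiv g).toList.map fun l => gdir l.1, ?_, ?_, ?_⟩
      · intro a ha
        rw [List.mem_map] at ha
        obtain ⟨s, _, rfl⟩ := ha
        exact ⟨s.1, rfl⟩
      · have h1 : (Word.equiv g : GWord n).prod = g := Word.equiv.symm_apply_apply g
        conv_rhs => rw [← h1]
        unfold Word.prod
        congr 1
        apply List.map_congr_left
        intro l hl
        have h2 : l.2 = tau := eq_tau ((Word.equiv g : GWord n).ne_one l hl)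
        unfold gdir
        rw [← h2]
      · rw [List.length_map]; rfl
  up g s s' hss := by
    unfold glen
    rw [equiv_mul, equiv_mul]
    by_cases h : (Word.equiv g : GWord n).fstIdx = some s
    · right
      rw [length_smul_of_ne]
      rw [h]
      intro h2
      exact hss (Option.some.inj h2)
    · left
      rw [length_smul_of_ne h]

instance (n : ℕ) : Countable (Gam n) := by
  have h : Function.Injective fun g : Gam n => (Word.equiv g : GWord n).toList := by
    intro g h hgh
    apply Word.equiv.injective
    exact Word.ext hgh
  exact h.countable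

end Involutions

end Pool.Agent.Helper58.Orb
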