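import Mathlib

/-!
Definitions for MP_fc0446_an (orbit-isometric maps between the Bernoulli shifts of `F_d` and of
`(ℤ/2)^{*2d}`).
-/

open MeasureTheory
open scoped ENNReal

namespace Pool.Agent.Helper58.Orb

/-- The space `X_G = [0,1]^G`. -/
abbrev Bern (G : Type) : Type := G → unitInterval

/-- The product measure `μ_G` of Lebesgue measures on `X_G`. -/
noncomputable def bern (G : Type) : Measure (Bern G) :=
  Measure.infinitePi fun _ : G => (volume : Measure unitInterval)

/-- The Bernoulli shift action `(g · x)(h) = x (g⁻¹ h)`. -/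
def shift {G : Type} [Group G] (g : G) (x : Bern G) : Bern G := fun h => x (g⁻¹ * h)

/-- The word length of `g` with respect to `S` (the least length of a list of elements of `S` with
product `g`; infinite if there is no such list). -/
noncomputable def wordLen {G : Type} [Group G] (S : Set G) (g : G) : ℕ∞ :=
  ⨅ (l : List G) (_ : (∀ a ∈ l, a ∈ S) ∧ l.prod = g), (l.length : ℕ∞)

/-- The orbit distance of the Bernoulli shift of `G`: the least word length of a `g` with
`g · x = y` (infinite if `x` and `y` lie in different orbits). -/
noncomputable def orbDist {G : Type} [Group G] (S : Set G) (x y : Bern G) : ℕ∞ :=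
  ⨅ (g : G) (_ : shift g x = y), wordLen S g

/-- `Φ` is a measure-preserving map which preserves the orbit distance on almost every orbit. (Not
assumed to be injective, nor to map orbits onto orbits.) -/
structure OrbitIsometry {G H : Type} [Group G] [Group H] (S : Set G) (T : Set H)
    (Φ : Bern G → Bern H) : Prop where
  measurePreserving : MeasurePreserving Φ (bern G) (bern H)
  dist_eq : ∀ᵐ x ∂(bern G), ∀ g : G, orbDist T (Φ x) (Φ (shift g x)) = orbDist S x (shift g x)

/-- The set of the points `x` with `Φ (s · x) = t · Φ(x)`. -/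
def agree {G H : Type} [Group G] [Group H] (Φ : Bern G → Bern H) (s : G) (t : H) :
    Set (Bern G) :=
  {x | Φ (shift s x) = shift t (Φ x)}

open Classical in
/-- The influence of the coordinate `g` on the set `E`: the probability that replacing the
coordinate `x g` of a random point `x` by an independent uniform random number changes whether the
point belongs to `E`. -/
noncomputable def influence {G : Type} (E : Set (Bern G)) (g : G) : ℝ≥0∞ :=
  ((bern G).prod (volume : Measure unitInterval))
    {p | ¬ (p.1 ∈ E ↔ Function.update p.1 g p.2 ∈ E)}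

/-- Membership in `E` depends only on the coordinates at word length at most `k`. -/
def BallDetermined {G : Type} [Group G] (S : Set G) (k : ℕ) (E : Set (Bern G)) : Prop :=
  ∀ x y : Bern G, (∀ g : G, wordLen S g ≤ k → x g = y g) → (x ∈ E ↔ y ∈ E)

/-- The generating set `{a₁^{±1}, …, a_d^{±1}}` of the free group `F_d`. -/
def freeGens (d : ℕ) : Set (FreeGroup (Fin d)) :=
  {g | ∃ i, g = FreeGroup.of i ∨ g = (FreeGroup.of i)⁻¹}

/-- The free product of `n` copies of `ℤ/2ℤ`. -/
abbrev Gam (n : ℕ) : Type := Monoid.CoprodI fun _ : Fin n => Multiplicative (ZMod 2)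

/-- The generating set `{s₁, …, s_n}` of `(ℤ/2ℤ)^{*n}`. -/
def gamGens (n : ℕ) : Set (Gam n) :=
  Set.range fun j : Fin n =>
    (Monoid.CoprodI.of (M := fun _ : Fin n => Multiplicative (ZMod 2)) (i := j)
      (Multiplicative.ofAdd 1) : Gam n)

/-- The two conclusions about the sets `{x : Φ(s·x) = t·Φ(x)}` for a fixed generator `t` of the
target:
* the influences of the coordinates at distance `k` on the sets with `t` and `t⁻¹` sum up to at
  least some `c > 0`, for all large `k`;
* sets depending only on the coordinates in the ball of radius `k` approximate the sets with `t` with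
  total error at least `c (2d-1)^{-k}`, for all `k`. -/
def NonLocal {G H : Type} [Group G] [Group H] (d : ℕ) (S : Set G) (Φ : Bern G → Bern H) (t : H) :
    Prop :=
  (∃ c : ℝ≥0∞, 0 < c ∧ ∀ᶠ k : ℕ in Filter.atTop,
    c ≤ ∑' g : {g : G // wordLen S g = k}, ∑' s : S,
      (influence (agree Φ (s : G) t) g.1 + influence (agree Φ (s : G) t⁻¹) g.1)) ∧
  (∃ c : ℝ≥0∞, 0 < c ∧ ∀ (k : ℕ) (E : G → Set (Bern G)),
    (∀ s ∈ S, BallDetermined S k (E s)) →
      c ≤ (2 * d - 1 : ℕ) ^ k * ∑' s : S, bern G (symmDiff (agree Φ (s : G) t) (E s)))

end Pool.Agent.Helper58.Orb
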