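import Pool.Agent.Helper58.Orb.Rigid

/-!
From an orbit isometry to the two families of sets, and the two conclusions.
-/

open MeasureTheory
open scoped ENNReal

namespace Pool.Agent.Helper58.Orb

section Dist

variable {G : Type} [Group G] {S : Set G} {D : Type} (T : TreeData G S D)

theorem orbDist_shift {x : Bern G} (hx : ∀ g : G, shift g x = x → g = 1) (g : G) :
    orbDist S x (shift g x) = wordLen S g := by
  unfold orbDist
  apply le_antisymm
  · exact iInf₂_le (f := fun (g' : G) (_ : shift g' x = shift g x) => wordLen S g') g rfl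
  · refine le_iInf₂ fun g' hg' => ?_
    have : g⁻¹ * g' = 1 := by
      apply hx
      rw [shift_mul, hg', shift_inv_shift]
    have : g' = g := by
      have h2 := congrArg (fun z => g * z) this
      simpa using h2
    rw [this]

theorem orbDist_self (T : TreeData G S D) (x : Bern G) : orbDist S x x = 0 := by
  have : orbDist S x x ≤ wordLen S (1 : G) := by
    unfold orbDist
    exact iInf₂_le (f := fun (g' : G) (_ : shift g' x = x) => wordLen S g') 1 (shift_one x)
  rw [T.wordLen_eq, T.len_one] at this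
  exact le_antisymm (by exact_mod_cast this) zero_le

theorem exists_of_orbDist_eq_one (T : TreeData G S D) {x y : Bern G} (h : orbDist S x y = 1) :
    ∃ l : D, y = shift (T.dir l) x := by
  have h2 : orbDist S x y < (2 : ℕ) := by rw [h]; exact_mod_cast Nat.one_lt_two
  unfold orbDist at h2
  rw [iInf_lt_iff] at h2
  obtain ⟨g, hg⟩ := h2
  rw [iInf_lt_iff] at hg
  obtain ⟨hg, hg2⟩ := hg
  rw [T.wordLen_eq] at hg2
  have h3 : T.len g < 2 := by exact_mod_cast hg2
  have h4 : T.len g ≠ 0 := by
    intro h0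
    have : g = 1 := T.eq_one_of_len h0
    subst this
    rw [shift_one] at hg
    subst hg
    rw [orbDist_self T] at h
    exact absurd h (by norm_num)
  obtain ⟨l, hl⟩ := T.mem_of_len (g := g) (by omega)
  exact ⟨l, by rw [hl, hg]⟩

end Dist

section Iso

variable {G H : Type} [Group G] [Group H]
variable {S : Set G} {S' : Set H} {D L : Type}

theorem measurableSet_agree [Countable H] {Φ : Bern G → Bern H} (hΦ : Measurable Φ) (s : G) (t : H) :
    MeasurableSet (agree Φ s t) := by
  have : agree Φ s t = ⋂ h : H, {x | Φ (shift s x) h = shift t (Φ x) h} := by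
    ext x
    simp only [agree, Set.mem_ofPred_eq, Set.mem_iInter]
    exact funext_iff
  rw [this]
  refine MeasurableSet.iInter fun h => measurableSet_coord_eq ?_ ?_
  · exact (measurable_pi_apply h).comp (hΦ.comp (measurable_shift s))
  · exact (measurable_pi_apply h).comp ((measurable_shift t).comp hΦ)

theorem agree_iff (Φ : Bern G → Bern H) (s : G) (t : H) (x : Bern G) :
    x ∈ agree Φ s t ↔ shift s x ∈ agree Φ s⁻¹ t⁻¹ := by
  simp only [agree, Set.mem_ofPred_eq, shift_inv_shift]
  constructor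
  · intro h; rw [h, shift_inv_shift]
  · intro h; rw [h, shift_shift_inv]

theorem unique_dir [Countable G] [Countable H] [Fintype D] [Fintype L] (T : TreeData G S D) (T' : TreeData H S' L)
    (hcard : Fintype.card D = Fintype.card L) {Φ : Bern G → Bern H}
    (hΦ : OrbitIsometry S S' Φ) :
    ∀ᵐ x ∂(bern G), ∀ l : L, ∃! s : D, x ∈ agree Φ (T.dir s) (T'.dir l) := by
  have hfree := ae_forall_shift (ae_free (G := G))
  have hfree' := hΦ.measurePreserving.quasiMeasurePreserving.ae (ae_free (G := H))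
  have hiso := ae_forall_shift hΦ.dist_eq
  filter_upwards [hfree, hfree', hiso] with x h1 h2 h3
  have h1x : ∀ g : G, shift g x = x → g = 1 := by
    have := h1 1
    rwa [shift_one] at this
  have h3x := h3 1
  rw [shift_one] at h3x
  have hlab : ∀ s : D, ∃ l : L, Φ (shift (T.dir s) x) = shift (T'.dir l) (Φ x) := by
    intro s
    apply exists_of_orbDist_eq_one T'
    rw [h3x, orbDist_shift h1x, T.wordLen_eq, T.len_dir]
    norm_cast
  choose lab hlab using hlab
  have hinj : Function.Injective lab := by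
    intro s s' hss
    have e1 : Φ (shift (T.dir s) x) = Φ (shift (T.dir s') x) := by
      rw [hlab s, hlab s', hss]
    have e2 := h3 (T.dir s) (T.dir s' * (T.dir s)⁻¹)
    rw [orbDist_shift (h1 (T.dir s)), T.wordLen_eq, ← shift_mul, inv_mul_cancel_right, ← e1,
      orbDist_self T'] at e2
    have e3 : T.len (T.dir s' * (T.dir s)⁻¹) = 0 := by exact_mod_cast e2.symm
    have e4 := T.eq_one_of_len e3
    exact T.inj (mul_inv_eq_one.1 e4).symm
  have hbij : Function.Bijective lab :=
    (Fintype.bijective_iff_injective_and_card lab).2 ⟨hinj, hcard⟩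
  intro l
  obtain ⟨s, hs⟩ := hbij.2 l
  refine ⟨s, ?_, ?_⟩
  · show Φ (shift (T.dir s) x) = shift (T'.dir l) (Φ x)
    rw [hlab, hs]
  · intro s' hs'
    have e1 : Φ (shift (T.dir s') x) = shift (T'.dir l) (Φ x) := hs'
    rw [hlab] at e1
    have e2 : (T'.dir l)⁻¹ * T'.dir (lab s') = 1 := by
      apply h2
      rw [shift_mul, e1, shift_inv_shift]
    have e3 : T'.dir l = T'.dir (lab s') := inv_mul_eq_one.1 e2
    have e4 := T'.inj e3
    exact hbij.1 (by rw [← e4, hs])

theorem iso_spread [Countable G] [Countable H] [Fintype D] [Fintype L] (T : TreeData G S D) (T' : TreeData H S' L)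
    (hcard : Fintype.card D = Fintype.card L)
    (hmix : ∀ (s : D) (l : L), (T.inv s = s ∧ T'.inv l ≠ l) ∨ (T.inv s ≠ s ∧ T'.inv l = l))
    {Φ : Bern G → Bern H} (hΦ : OrbitIsometry S S' Φ) (l : L) :
    ∃ c : ℝ≥0∞, 0 < c ∧ ∃ k0 : ℕ, ∀ k ≥ k0,
      c ≤ ∑ g ∈ T.sph k, ∑ s : D, (influence (agree Φ (T.dir s) (T'.dir l)) g +
        influence (agree Φ (T.dir s) (T'.dir l)⁻¹) g) := by
  have hu := unique_dir T T' hcard hΦ
  have hm := hΦ.measurePreserving.measurable
  have h12 : ∀ s x, x ∈ agree Φ (T.dir s) (T'.dir l) ↔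
      shift (T.dir s) x ∈ agree Φ (T.dir (T.inv s)) (T'.dir l)⁻¹ := by
    intro s x
    rw [T.dir_inv]
    exact agree_iff _ _ _ _
  have hu1 : ∀ᵐ x ∂(bern G), ∃! s : D, x ∈ agree Φ (T.dir s) (T'.dir l) := by
    filter_upwards [hu] with x hx using hx l
  have hu2 : ∀ᵐ x ∂(bern G), ∃! s : D, x ∈ agree Φ (T.dir s) (T'.dir l)⁻¹ := by
    filter_upwards [hu] with x hx
    have := hx (T'.inv l)
    rwa [T'.dir_inv] at this
  rcases spread T (fun s => agree Φ (T.dir s) (T'.dir l))
    (fun s => agree Φ (T.dir s) (T'.dir l)⁻¹) (fun s => measurableSet_agree hm _ _)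
    (fun s => measurableSet_agree hm _ _) hu1 hu2 h12 with ⟨s0, hs0⟩ | h
  · exfalso
    have a1 : ∀ᵐ x ∂(bern G), x ∈ agree Φ (T.dir s0) (T'.dir l) := by
      rw [ae_iff]
      have := (prob_compl_eq_zero_iff (measurableSet_agree hm (T.dir s0) (T'.dir l))).2 hs0
      exact this
    have a2 : ∀ᵐ x ∂(bern G), x ∈ agree Φ (T.dir (T.inv s0)) (T'.dir l)⁻¹ := by
      have := (measurePreserving_shift (T.dir s0)⁻¹).quasiMeasurePreserving.ae a1
      filter_upwards [this] with x hx
      have := (h12 s0 _).1 hx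
      rwa [shift_shift_inv] at this
    have hF : ∀ᵐ x ∂(bern G), False := by
      rcases hmix s0 l with ⟨hs, hl⟩ | ⟨hs, hl⟩
      · have hfree' := hΦ.measurePreserving.quasiMeasurePreserving.ae (ae_free (G := H))
        filter_upwards [a1, a2, hfree'] with x b1 b2 b3
        rw [hs] at b2
        have c1 : Φ (shift (T.dir s0) x) = shift (T'.dir l) (Φ x) := b1
        have c2 : Φ (shift (T.dir s0) x) = shift (T'.dir l)⁻¹ (Φ x) := b2
        have c3 : T'.dir l * T'.dir l = 1 := by
          apply b3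
          rw [shift_mul, ← c1, c2, shift_shift_inv]
        apply hl
        apply T'.inj
        rw [T'.dir_inv]
        exact inv_eq_of_mul_eq_one_left c3
      · filter_upwards [a1, a2, hu1] with x b1 b2 b3
        have c1 : (T'.dir l)⁻¹ = T'.dir l := by rw [← T'.dir_inv, hl]
        rw [c1] at b2
        exact hs (b3.unique b2 b1)
    rw [ae_iff] at hF
    simp at hF
  · exact h

theorem influence_le (T : TreeData G S D) {E F : Set (Bern G)} {k : ℕ}
    (hF : BallDetermined S k F) {g : G} (hg : k < T.len g) :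
    influence E g ≤ 2 * bern G (symmDiff E F) := by
  set A := toMeasurable (bern G) (symmDiff E F) with hA
  have hAm : MeasurableSet A := measurableSet_toMeasurable _ _
  have hsub : {p : Bern G × unitInterval | ¬ (p.1 ∈ E ↔ upd g p ∈ E)} ⊆
      Prod.fst ⁻¹' A ∪ upd g ⁻¹' A := by
    intro p hp
    by_contra hcon
    simp only [Set.mem_union, Set.mem_preimage, not_or] at hcon
    obtain ⟨h1, h2⟩ := hcon
    have h1' : p.1 ∉ symmDiff E F := fun h => h1 (subset_toMeasurable _ _ h)
    have h2' : upd g p ∉ symmDiff E F := fun h => h2 (subset_toMeasurable _ _ h)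
    rw [Set.mem_symmDiff] at h1' h2'
    have h3 : p.1 ∈ F ↔ upd g p ∈ F := by
      apply hF
      intro h hh
      rw [T.wordLen_eq] at hh
      have hh' : T.len h ≤ k := by exact_mod_cast hh
      rw [upd_of_ne]
      rintro rfl
      omega
    apply hp
    tauto
  calc influence E g = bernP G {p | ¬ (p.1 ∈ E ↔ upd g p ∈ E)} := influence_eq _ _
    _ ≤ bernP G (Prod.fst ⁻¹' A ∪ upd g ⁻¹' A) := measure_mono hsub
    _ ≤ bernP G (Prod.fst ⁻¹' A) + bernP G (upd g ⁻¹' A) := measure_union_le _ _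
    _ = 2 * bern G (symmDiff E F) := by
      rw [measurePreserving_fstP.measure_preimage hAm.nullMeasurableSet,
        (measurePreserving_upd g).measure_preimage hAm.nullMeasurableSet, hA,
        measure_toMeasurable, two_mul]

theorem bern_shift_preimage_le (g : G) (B : Set (Bern G)) :
    bern G (shift g ⁻¹' B) ≤ bern G B := by
  calc bern G (shift g ⁻¹' B) ≤ bern G (shift g ⁻¹' (toMeasurable (bern G) B)) :=
        measure_mono (Set.preimage_mono (subset_toMeasurable _ _))
    _ = bern G B := by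
      rw [(measurePreserving_shift g).measure_preimage
        (measurableSet_toMeasurable _ _).nullMeasurableSet, measure_toMeasurable]

theorem iso_approx [Countable G] [Countable H] [Fintype D] [Fintype L] (T : TreeData G S D) (T' : TreeData H S' L)
    (hcard : Fintype.card D = Fintype.card L) (hD : 2 ≤ Fintype.card D)
    (hmix : ∀ (s : D) (l : L), (T.inv s = s ∧ T'.inv l ≠ l) ∨ (T.inv s ≠ s ∧ T'.inv l = l))
    {Φ : Bern G → Bern H} (hΦ : OrbitIsometry S S' Φ) (l : L) :
    ∃ c : ℝ≥0∞, 0 < c ∧ ∀ (k : ℕ) (E : G → Set (Bern G)),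
      (∀ s ∈ S, BallDetermined S k (E s)) →
      c ≤ ((Fintype.card D - 1 : ℕ) : ℝ≥0∞) ^ k *
        ∑ s : D, bern G (symmDiff (agree Φ (T.dir s) (T'.dir l)) (E (T.dir s))) := by
  obtain ⟨c, hc, k0, hk0⟩ := iso_spread T T' hcard hmix hΦ l
  have hm := hΦ.measurePreserving.measurable
  set n := Fintype.card D with hn
  set M : ℝ≥0∞ := 4 * ((n * (n - 1) ^ (k0 + 1) : ℕ) : ℝ≥0∞) with hM
  have hMtop : M ≠ ⊤ := ENNReal.mul_ne_top (by norm_num) (ENNReal.natCast_ne_top _)
  refine ⟨c / M, ENNReal.div_pos hc.ne' hMtop, fun k E hE => ?_⟩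
  set δ := ∑ s : D, bern G (symmDiff (agree Φ (T.dir s) (T'.dir l)) (E (T.dir s))) with hδ
  set K := max (k + 2) k0 with hK
  have h1 := hk0 K (le_max_right _ _)
  have h2 : ∀ g ∈ T.sph K, ∑ s : D, (influence (agree Φ (T.dir s) (T'.dir l)) g +
        influence (agree Φ (T.dir s) (T'.dir l)⁻¹) g) ≤ 4 * δ := by
    intro g hg
    rw [T.mem_sph] at hg
    have hKk : k + 2 ≤ K := le_max_left _ _
    have b1 : ∀ s : D, influence (agree Φ (T.dir s) (T'.dir l)) g ≤
        2 * bern G (symmDiff (agree Φ (T.dir s) (T'.dir l)) (E (T.dir s))) := fun s =>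
      influence_le T (hE _ (T.dir_mem s)) (by omega)
    have b2 : ∀ s : D, influence (agree Φ (T.dir s) (T'.dir l)⁻¹) g ≤
        2 * bern G (symmDiff (agree Φ (T.dir (T.inv s)) (T'.dir l)) (E (T.dir (T.inv s)))) := by
      intro s
      have hF : BallDetermined S (k + 1) (shift (T.dir s) ⁻¹' (E (T.dir (T.inv s)))) := by
        intro x y hxy
        refine hE _ (T.dir_mem (T.inv s)) _ _ fun h hh => ?_
        rw [T.wordLen_eq] at hh
        have hh' : T.len h ≤ k := by exact_mod_cast hh
        simp only [shift]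
        apply hxy
        rw [T.wordLen_eq, ← T.dir_inv]
        have := T.len_mul_le (T.inv s) h
        exact_mod_cast (by omega : T.len (T.dir (T.inv s) * h) ≤ k + 1)
      refine (influence_le T hF (g := g) (by omega)).trans ?_
      have hset : symmDiff (agree Φ (T.dir s) (T'.dir l)⁻¹)
          (shift (T.dir s) ⁻¹' (E (T.dir (T.inv s)))) =
          shift (T.dir s) ⁻¹' (symmDiff (agree Φ (T.dir (T.inv s)) (T'.dir l))
            (E (T.dir (T.inv s)))) := by
        ext x
        have : x ∈ agree Φ (T.dir s) (T'.dir l)⁻¹ ↔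
            shift (T.dir s) x ∈ agree Φ (T.dir (T.inv s)) (T'.dir l) := by
          rw [agree_iff, T.dir_inv, _root_.inv_inv]
        simp only [Set.mem_symmDiff, Set.mem_preimage, this]
      rw [hset]
      exact mul_le_mul' le_rfl (bern_shift_preimage_le (T.dir s) _)
    have hperm : ∑ s : D, bern G (symmDiff (agree Φ (T.dir (T.inv s)) (T'.dir l))
        (E (T.dir (T.inv s)))) = δ := by
      have hinv : Function.Involutive T.inv := T.inv_inv
      exact Equiv.sum_comp (hinv.toPerm T.inv)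
        (fun s => bern G (symmDiff (agree Φ (T.dir s) (T'.dir l)) (E (T.dir s))))
    calc _ ≤ ∑ s : D, (2 * bern G (symmDiff (agree Φ (T.dir s) (T'.dir l)) (E (T.dir s))) +
          2 * bern G (symmDiff (agree Φ (T.dir (T.inv s)) (T'.dir l)) (E (T.dir (T.inv s))))) :=
          Finset.sum_le_sum fun s _ => add_le_add (b1 s) (b2 s)
      _ = 2 * δ + 2 * δ := by
        rw [Finset.sum_add_distrib, ← Finset.mul_sum, ← Finset.mul_sum, hperm]
      _ = 4 * δ := by rw [← add_mul]; norm_num
  have hcardK : ((T.sph K).card : ℝ≥0∞) ≤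
      ((n * (n - 1) ^ (k0 + 1) : ℕ) : ℝ≥0∞) * ((n - 1 : ℕ) : ℝ≥0∞) ^ k := by
    have e1 : (T.sph K).card ≤ n * (n - 1) ^ (K - 1) := by
      have := T.card_sph (K - 1)
      rwa [show K - 1 + 1 = K by omega] at this
    have e2 : (n - 1) ^ (K - 1) ≤ (n - 1) ^ (k0 + 1 + k) :=
      Nat.pow_le_pow_right (by omega) (by omega)
    have e3 : (T.sph K).card ≤ n * (n - 1) ^ (k0 + 1) * (n - 1) ^ k := by
      calc _ ≤ _ := e1
        _ ≤ n * (n - 1) ^ (k0 + 1 + k) := Nat.mul_le_mul_left _ e2
        _ = _ := by rw [pow_add, mul_assoc]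
    exact_mod_cast e3
  have h3 : c ≤ ((n - 1 : ℕ) : ℝ≥0∞) ^ k * δ * M := by
    calc c ≤ _ := h1
      _ ≤ ∑ g ∈ T.sph K, 4 * δ := Finset.sum_le_sum h2
      _ = (T.sph K).card * (4 * δ) := by rw [Finset.sum_const, nsmul_eq_mul]
      _ ≤ (((n * (n - 1) ^ (k0 + 1) : ℕ) : ℝ≥0∞) * ((n - 1 : ℕ) : ℝ≥0∞) ^ k) * (4 * δ) := by
        gcongr
      _ = _ := by rw [hM]; ring
  exact ENNReal.div_le_of_le_mul h3

theorem tsum_gens [Fintype D] (T : TreeData G S D) (f : G → ℝ≥0∞) :
    ∑' s : S, f s = ∑ s : D, f (T.dir s) := by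
  rw [← tsum_fintype (L := .unconditional _)]
  exact (Equiv.tsum_eq ((Equiv.ofInjective T.dir T.inj).trans (Equiv.setCongr T.range_dir))
    (fun s : S => f s)).symm

theorem tsum_sphere [Fintype D] (T : TreeData G S D) (k : ℕ) (f : G → ℝ≥0∞) :
    ∑' g : {g : G // wordLen S g = k}, f g.1 = ∑ g ∈ T.sph k, f g := by
  have h : ∀ g : G, g ∈ T.sph k ↔ wordLen S g = k := by
    intro g
    rw [T.mem_sph, T.wordLen_eq]
    norm_cast
  rw [← Finset.tsum_subtype (T.sph k) f]
  exact (Equiv.tsum_eq (Equiv.subtypeEquivRight h)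
    (fun g : {g : G // wordLen S g = k} => f g.1)).symm

theorem nonLocal_of [Countable G] [Countable H] [Fintype D] [Fintype L] (T : TreeData G S D) (T' : TreeData H S' L) (d : ℕ)
    (hcard : Fintype.card D = 2 * d) (hcard' : Fintype.card L = 2 * d) (hd : 1 ≤ d)
    (hmix : ∀ (s : D) (l : L), (T.inv s = s ∧ T'.inv l ≠ l) ∨ (T.inv s ≠ s ∧ T'.inv l = l))
    {Φ : Bern G → Bern H} (hΦ : OrbitIsometry S S' Φ) {t : H} (ht : t ∈ S') :
    NonLocal d S Φ t := by
  obtain ⟨l, rfl⟩ := T'.exists_dir ht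
  constructor
  · obtain ⟨c, hc, k0, hk0⟩ := iso_spread T T' (hcard.trans hcard'.symm) hmix hΦ l
    refine ⟨c, hc, ?_⟩
    filter_upwards [Filter.eventually_ge_atTop k0] with k hk
    have := hk0 k hk
    rw [tsum_sphere T k (fun g => ∑' s : S, (influence (agree Φ (s : G) (T'.dir l)) g +
      influence (agree Φ (s : G) (T'.dir l)⁻¹) g))]
    refine this.trans (le_of_eq ?_)
    refine Finset.sum_congr rfl fun g _ => ?_
    exact (tsum_gens T (fun s => influence (agree Φ s (T'.dir l)) g +
      influence (agree Φ s (T'.dir l)⁻¹) g)).symm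
  · obtain ⟨c, hc, h⟩ := iso_approx T T' (hcard.trans hcard'.symm) (by omega) hmix hΦ l
    refine ⟨c, hc, fun k E hE => ?_⟩
    have := h k E hE
    rw [hcard] at this
    rwa [tsum_gens T (fun s => bern G (symmDiff (agree Φ s (T'.dir l)) (E s)))]

end Iso

end Pool.Agent.Helper58.Orb
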