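import Pool.Agent.Helper58.Orb.Defs

/-!
Measure theory on `X_G`: resampling one coordinate, invariance under the shift, freeness, and the
zero–one law for sets without influences.
-/

open MeasureTheory
open scoped ENNReal

namespace Pool.Agent.Helper58.Orb

instance (G : Type) : IsProbabilityMeasure (bern G) := by
  unfold bern; infer_instance

section Update

variable {G : Type}

open Classical in
/-- Resampling map. -/
noncomputable def upd (g : G) (p : Bern G × unitInterval) : Bern G := Function.update p.1 g p.2

theorem upd_same (g : G) (p : Bern G × unitInterval) : upd g p g = p.2 := by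
  simp [upd]

theorem upd_of_ne {g h : G} (hne : h ≠ g) (p : Bern G × unitInterval) : upd g p h = p.1 h := by
  classical
  unfold upd
  exact Function.update_of_ne hne _ _

theorem measurable_upd (g : G) : Measurable (upd g) := by
  classical
  rw [measurable_pi_iff]
  intro h
  by_cases hh : h = g
  · subst hh
    simp only [upd_same]
    exact measurable_snd
  · simp only [upd_of_ne hh]
    exact (measurable_pi_apply h).comp measurable_fst

/-- Abbreviation for the product of `μ_G` with Lebesgue measure. -/
noncomputable def bernP (G : Type) : Measure (Bern G × unitInterval) :=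
  (bern G).prod (volume : Measure unitInterval)

instance (G : Type) : IsProbabilityMeasure (bernP G) := by
  unfold bernP; infer_instance

theorem bernP_prod (A : Set (Bern G)) (B : Set unitInterval) :
    bernP G (A ×ˢ B) = bern G A * volume B := Measure.prod_prod _ _

theorem bern_pi (s : Finset G) (t : G → Set unitInterval) (ht : ∀ i, MeasurableSet (t i)) :
    bern G (Set.pi s t) = ∏ i ∈ s, volume (t i) :=
  Measure.infinitePi_pi _ (fun i _ => ht i)

theorem map_upd (g : G) : (bernP G).map (upd g) = bern G := by
  classical
  refine Measure.eq_infinitePi _ fun s t ht => ?_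
  rw [Measure.map_apply (measurable_upd g) (MeasurableSet.pi s.countable_toSet fun i _ => ht i)]
  by_cases hg : g ∈ s
  · have : upd g ⁻¹' (Set.pi s t) = (Set.pi (s.erase g : Finset G) t) ×ˢ (t g) := by
      ext p
      simp only [Set.mem_preimage, Set.mem_pi, Finset.mem_coe, Set.mem_prod, Finset.mem_erase]
      constructor
      · intro h
        refine ⟨fun i hi => ?_, ?_⟩
        · have := h i hi.2
          rwa [upd_of_ne hi.1] at this
        · have := h g hg
          rwa [upd_same] at this
      · rintro ⟨h1, h2⟩ i hi
        by_cases hig : i = g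
        · subst hig; rwa [upd_same]
        · rw [upd_of_ne hig]; exact h1 i ⟨hig, hi⟩
    rw [this, bernP_prod, bern_pi _ _ ht, Finset.prod_erase_mul _ _ hg]
  · have : upd g ⁻¹' (Set.pi s t) = (Set.pi s t) ×ˢ Set.univ := by
      ext p
      simp only [Set.mem_preimage, Set.mem_pi, Finset.mem_coe, Set.mem_prod, Set.mem_univ, and_true]
      constructor
      · intro h i hi
        have hne : i ≠ g := fun h => hg (h ▸ hi)
        have := h i hi
        rwa [upd_of_ne hne] at this
      · intro h i hi
        have hne : i ≠ g := fun h => hg (h ▸ hi)
        rw [upd_of_ne hne]; exact h i hi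
    rw [this, bernP_prod, bern_pi _ _ ht, measure_univ, mul_one]

theorem measurePreserving_upd (g : G) : MeasurePreserving (upd g) (bernP G) (bern G) :=
  ⟨measurable_upd g, map_upd g⟩

theorem measurePreserving_fstP : MeasurePreserving Prod.fst (bernP G) (bern G) :=
  measurePreserving_fst

theorem influence_eq (E : Set (Bern G)) (g : G) :
    influence E g = bernP G {p | ¬ (p.1 ∈ E ↔ upd g p ∈ E)} := rfl

/-- Zero–one law: a measurable set without influences has measure `0` or `1`. -/
theorem zero_one {E : Set (Bern G)} (hE : MeasurableSet E)
    (h : ∀ g, influence E g = 0) : bern G E = 0 ∨ bern G E = 1 := by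
  classical
  have key : ∀ (s : Finset G) (t : G → Set unitInterval), (∀ i, MeasurableSet (t i)) →
      bern G (Set.pi s t ∩ E) = bern G E * ∏ i ∈ s, volume (t i) := by
    intro s t ht
    induction s using Finset.induction_on with
    | empty => simp
    | insert a s ha ih =>
      have hm : MeasurableSet (Set.pi (s : Set G) t) :=
        MeasurableSet.pi s.countable_toSet fun i _ => ht i
      have hm' : MeasurableSet (Set.pi ((insert a s : Finset G) : Set G) t) :=
        MeasurableSet.pi (Finset.countable_toSet _) fun i _ => ht i
      have h1 : bern G (Set.pi ((insert a s : Finset G) : Set G) t ∩ E) =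
          bernP G (upd a ⁻¹' (Set.pi ((insert a s : Finset G) : Set G) t ∩ E)) := by
        rw [(measurePreserving_upd a).measure_preimage (hm'.inter hE).nullMeasurableSet]
      have h2 : (upd a ⁻¹' (Set.pi ((insert a s : Finset G) : Set G) t ∩ E) :
          Set (Bern G × unitInterval)) =ᵐ[bernP G] ((Set.pi (s : Set G) t ∩ E) ×ˢ (t a)) := by
        have h0 := h a
        rw [influence_eq] at h0
        have h0' : ∀ᵐ p ∂(bernP G), (p.1 ∈ E ↔ upd a p ∈ E) := by
          rw [ae_iff]; exact h0
        rw [Filter.eventuallyEq_set]
        filter_upwards [h0'] with p hp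
        simp only [Set.mem_preimage, Set.mem_inter_iff, Set.mem_pi, Finset.coe_insert,
          Set.mem_insert_iff, Finset.mem_coe, Set.mem_prod]
        constructor
        · rintro ⟨h3, h4⟩
          refine ⟨⟨fun i hi => ?_, hp.2 h4⟩, ?_⟩
          · have hne : i ≠ a := fun hh => ha (hh ▸ hi)
            have := h3 i (Or.inr hi)
            rwa [upd_of_ne hne] at this
          · have := h3 a (Or.inl rfl)
            rwa [upd_same] at this
        · rintro ⟨⟨h3, h4⟩, h5⟩
          refine ⟨fun i hi => ?_, hp.1 h4⟩
          by_cases hia : i = a
          · subst hia; rwa [upd_same]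
          · rw [upd_of_ne hia]
            exact h3 i (hi.resolve_left hia)
      rw [h1, measure_congr h2, bernP_prod, ih, Finset.prod_insert ha]
      ring
  by_cases h0 : bern G E = 0
  · exact Or.inl h0
  right
  have hfin : bern G E ≠ ⊤ := measure_ne_top _ _
  have heq : (bern G E)⁻¹ • (bern G).restrict E = bern G := by
    refine Measure.eq_infinitePi _ fun s t ht => ?_
    have hm : MeasurableSet (Set.pi (s : Set G) t) :=
        MeasurableSet.pi s.countable_toSet fun i _ => ht i
    rw [Measure.smul_apply, Measure.restrict_apply hm, key s t ht, smul_eq_mul, ← mul_assoc,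
      ENNReal.inv_mul_cancel h0 hfin, one_mul]
  have h3 : bern G Eᶜ = 0 := by
    rw [← heq, Measure.smul_apply, Measure.restrict_apply hE.compl]
    simp
  rw [prob_compl_eq_zero_iff hE] at h3
  exact h3

theorem measurableSet_coord_eq {α : Type} [MeasurableSpace α] {f g : α → unitInterval}
    (hf : Measurable f) (hg : Measurable g) : MeasurableSet {x | f x = g x} := by
  have : {x | f x = g x} = {x | f x ≤ g x} ∩ {x | g x ≤ f x} := by
    ext x
    simp only [Set.mem_inter_iff, Set.mem_ofPred_eq]
    exact le_antisymm_iff
  rw [this]
  exact (measurableSet_le hf hg).inter (measurableSet_le hg hf)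

/-- Two different coordinates differ almost surely. -/
theorem coord_ne {a b : G} (hab : a ≠ b) : ∀ᵐ x ∂(bern G), x a ≠ x b := by
  have hm : MeasurableSet {x : Bern G | x a = x b} :=
    measurableSet_coord_eq (measurable_pi_apply a) (measurable_pi_apply b)
  rw [ae_iff]
  simp only [ne_eq, not_not]
  rw [← (measurePreserving_upd a).measure_preimage hm.nullMeasurableSet]
  have : upd a ⁻¹' {x : Bern G | x a = x b} = {p | p.2 = p.1 b} := by
    ext p
    simp only [Set.mem_preimage, Set.mem_ofPred_eq, upd_same, upd_of_ne hab.symm]
  rw [this]
  have hm2 : MeasurableSet {p : Bern G × unitInterval | p.2 = p.1 b} := by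
    rw [← this]; exact measurable_upd a hm
  unfold bernP
  rw [Measure.prod_apply hm2]
  have : ∀ x : Bern G, (volume : Measure unitInterval) (Prod.mk x ⁻¹' {p | p.2 = p.1 b}) = 0 := by
    intro x
    have : Prod.mk x ⁻¹' {p : Bern G × unitInterval | p.2 = p.1 b} = {x b} := by
      ext y; simp
    rw [this]
    exact measure_singleton _
  simp only [this, lintegral_zero]

end Update

section Shift

variable {G : Type} [Group G]

theorem shift_one (x : Bern G) : shift 1 x = x := by
  funext h; simp [shift]

theorem shift_mul (g h : G) (x : Bern G) : shift (g * h) x = shift g (shift h x) := by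
  funext k; simp [shift, mul_assoc]

theorem shift_inv_shift (g : G) (x : Bern G) : shift g⁻¹ (shift g x) = x := by
  rw [← shift_mul, inv_mul_cancel, shift_one]

theorem shift_shift_inv (g : G) (x : Bern G) : shift g (shift g⁻¹ x) = x := by
  rw [← shift_mul, mul_inv_cancel, shift_one]

theorem measurable_shift (g : G) : Measurable (shift g : Bern G → Bern G) := by
  rw [measurable_pi_iff]
  intro h
  exact measurable_pi_apply _

theorem measurePreserving_shift (g : G) : MeasurePreserving (shift g) (bern G) (bern G) := by
  classical
  refine ⟨measurable_shift g, Measure.eq_infinitePi _ fun s t ht => ?_⟩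
  rw [Measure.map_apply (measurable_shift g)
    (MeasurableSet.pi s.countable_toSet fun i _ => ht i)]
  have : shift g ⁻¹' (Set.pi (s : Set G) t) =
      Set.pi ((s.image fun h => g⁻¹ * h : Finset G) : Set G) (fun k => t (g * k)) := by
    ext x
    simp only [Set.mem_preimage, Set.mem_pi, Finset.mem_coe, Finset.mem_image, shift]
    constructor
    · rintro h k ⟨i, hi, rfl⟩
      simpa using h i hi
    · intro h i hi
      have := h (g⁻¹ * i) ⟨i, hi, rfl⟩
      simpa using this
  rw [this, bern_pi _ _ (fun i => ht _), Finset.prod_image]
  · simp
  · intro a _ b _ hab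
    exact mul_left_cancel hab

theorem shift_upd (g h : G) (p : Bern G × unitInterval) :
    shift g (upd h p) = upd (g * h) (shift g p.1, p.2) := by
  funext k
  by_cases hk : k = g * h
  · subst hk
    rw [upd_same]
    simp [shift, upd_same]
  · rw [upd_of_ne hk]
    have : g⁻¹ * k ≠ h := by
      rintro rfl
      exact hk (by simp)
    simp only [shift]
    rw [upd_of_ne this]

theorem measurePreserving_shiftP (g : G) :
    MeasurePreserving (fun p : Bern G × unitInterval => (shift g p.1, p.2)) (bernP G) (bernP G) :=
  (measurePreserving_shift g).prod (MeasurePreserving.id _)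

/-- The free points. -/
theorem ae_free [Countable G] : ∀ᵐ x ∂(bern G), ∀ g : G, shift g x = x → g = 1 := by
  rw [ae_all_iff]
  intro g
  by_cases hg : g = 1
  · filter_upwards with x _ using hg
  · have : (1 : G) ≠ g⁻¹ := by
      intro h; exact hg (by simpa using h.symm)
    filter_upwards [coord_ne this] with x hx h
    exfalso
    apply hx
    have := congrFun h 1
    simp only [shift, mul_one] at this
    exact this.symm

theorem ae_forall_shift [Countable G] {p : Bern G → Prop} (hp : ∀ᵐ x ∂(bern G), p x) :
    ∀ᵐ x ∂(bern G), ∀ g : G, p (shift g x) := by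
  rw [ae_all_iff]
  intro g
  exact (measurePreserving_shift g).quasiMeasurePreserving.ae hp

end Shift

end Pool.Agent.Helper58.Orb
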