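import Pool.Agent.Helper58.Orb.Meas

/-!
Rigidity: two families of sets describing a measurable choice of directions on a tree either are
constant, or have influences which do not decay.
-/

open MeasureTheory
open scoped ENNReal

namespace Pool.Agent.Helper58.Orb

/-- The facts used about the Cayley tree of `G` with the generating set `S`, whose elements are
indexed by `D`. -/
structure TreeData (G : Type) [Group G] (S : Set G) (D : Type) where
  dir : D → G
  inv : D → D
  len : G → ℕ
  inj : Function.Injective dir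
  range_dir : Set.range dir = S
  dir_inv : ∀ s, dir (inv s) = (dir s)⁻¹
  dir_ne_one : ∀ s, dir s ≠ 1
  wordLen_eq : ∀ g, wordLen S g = len g
  up : ∀ g s s', s ≠ s' → len g + 1 ≤ len (dir s * g) ∨ len g + 1 ≤ len (dir s' * g)

namespace TreeData

variable {G : Type} [Group G] {S : Set G} {D : Type} (T : TreeData G S D)

theorem inv_inv (s : D) : T.inv (T.inv s) = s := by
  apply T.inj
  rw [T.dir_inv, T.dir_inv, _root_.inv_inv]

theorem dir_mem (s : D) : T.dir s ∈ S := by
  have h := Set.mem_range_self (f := T.dir) s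
  rwa [T.range_dir] at h

theorem exists_dir {a : G} (ha : a ∈ S) : ∃ s, T.dir s = a := by
  have h : a ∈ Set.range T.dir := by rw [T.range_dir]; exact ha
  exact h

theorem exists_list (g : G) : ∃ l : List G, (∀ a ∈ l, a ∈ S) ∧ l.prod = g ∧ l.length = T.len g := by
  have h : wordLen S g < (T.len g + 1 : ℕ) := by
    rw [T.wordLen_eq]; exact_mod_cast Nat.lt_succ_self _
  unfold wordLen at h
  rw [iInf_lt_iff] at h
  obtain ⟨l, hl⟩ := h
  rw [iInf_lt_iff] at hl
  obtain ⟨⟨h1, h2⟩, h3⟩ := hl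
  refine ⟨l, h1, h2, le_antisymm ?_ ?_⟩
  · have : l.length < T.len g + 1 := by exact_mod_cast h3
    omega
  · have : wordLen S g ≤ (l.length : ℕ∞) := by
      unfold wordLen
      exact iInf₂_le l ⟨h1, h2⟩
    rw [T.wordLen_eq] at this
    exact_mod_cast this

theorem len_le_of_list {l : List G} (hl : ∀ a ∈ l, a ∈ S) : T.len l.prod ≤ l.length := by
  have : wordLen S l.prod ≤ (l.length : ℕ∞) := by
    unfold wordLen
    exact iInf₂_le l ⟨hl, rfl⟩
  rw [T.wordLen_eq] at this
  exact_mod_cast this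

theorem len_one : T.len 1 = 0 := by
  have := T.len_le_of_list (l := []) (by simp)
  simpa using this

theorem eq_one_of_len {g : G} (h : T.len g = 0) : g = 1 := by
  obtain ⟨l, _, h2, h3⟩ := T.exists_list g
  rw [h, List.length_eq_zero_iff] at h3
  subst h3
  simpa using h2.symm

theorem len_mul_le (s : D) (g : G) : T.len (T.dir s * g) ≤ T.len g + 1 := by
  obtain ⟨l, h1, h2, h3⟩ := T.exists_list g
  have := T.len_le_of_list (l := T.dir s :: l) (by
    intro a ha
    rcases List.mem_cons.1 ha with rfl | ha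
    · exact T.dir_mem s
    · exact h1 a ha)
  simpa [h2, h3] using this

theorem len_dir (s : D) : T.len (T.dir s) = 1 := by
  have h1 := T.len_mul_le s 1
  rw [mul_one, T.len_one] at h1
  have h2 : T.len (T.dir s) ≠ 0 := fun h => T.dir_ne_one s (T.eq_one_of_len h)
  omega

theorem mem_of_len {g : G} (h : T.len g = 1) : ∃ s, T.dir s = g := by
  obtain ⟨l, h1, h2, h3⟩ := T.exists_list g
  rw [h, List.length_eq_one_iff] at h3
  obtain ⟨a, rfl⟩ := h3
  obtain ⟨s, rfl⟩ := T.exists_dir (h1 a (by simp))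
  exact ⟨s, by simpa using h2⟩

theorem exists_pred {g : G} {k : ℕ} (h : T.len g = k + 1) :
    ∃ s g', g = T.dir s * g' ∧ T.len g' = k := by
  obtain ⟨l, h1, h2, h3⟩ := T.exists_list g
  rw [h] at h3
  obtain _ | ⟨a, l'⟩ := l
  · simp at h3
  have h4 : l'.length = k := by simpa using h3
  obtain ⟨s, rfl⟩ := T.exists_dir (h1 a (by simp))
  refine ⟨s, l'.prod, by simpa using h2.symm, ?_⟩
  have h5 : T.len l'.prod ≤ l'.length := T.len_le_of_list fun a ha => h1 a (by simp [ha])
  have h6 := T.len_mul_le s l'.prod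
  rw [List.prod_cons] at h2
  rw [h2, h] at h6
  omega

open Classical in
/-- The sphere of radius `k`. -/
noncomputable def sph [Fintype D] : ℕ → Finset G
  | 0 => {1}
  | k + 1 =>
    ((Finset.univ ×ˢ sph k).image fun p : D × G => T.dir p.1 * p.2).filter fun g => T.len g = k + 1

theorem mem_sph [Fintype D] {k : ℕ} {g : G} : g ∈ T.sph k ↔ T.len g = k := by
  classical
  induction k generalizing g with
  | zero =>
    simp only [sph, Finset.mem_singleton]
    constructor
    · rintro rfl; exact T.len_one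
    · exact T.eq_one_of_len
  | succ k ih =>
    simp only [sph, Finset.mem_filter, Finset.mem_image, Finset.mem_product, Finset.mem_univ,
      true_and, Prod.exists]
    constructor
    · rintro ⟨_, h⟩; exact h
    · intro h
      refine ⟨?_, h⟩
      obtain ⟨s, g', h1, h2⟩ := T.exists_pred h
      exact ⟨s, g', ih.2 h2, h1.symm⟩

theorem card_sph [Fintype D] (k : ℕ) :
    (T.sph (k + 1)).card ≤ Fintype.card D * (Fintype.card D - 1) ^ k := by
  classical
  induction k with
  | zero =>
    have : T.sph 1 ⊆ (Finset.univ : Finset D).image T.dir := by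
      intro g hg
      rw [mem_sph] at hg
      obtain ⟨s, hs⟩ := T.mem_of_len hg
      exact Finset.mem_image.2 ⟨s, Finset.mem_univ _, hs⟩
    calc (T.sph 1).card ≤ _ := Finset.card_le_card this
      _ ≤ Fintype.card D := Finset.card_image_le
      _ = _ := by simp
  | succ k ih =>
    have hsub : T.sph (k + 2) ⊆ (T.sph (k + 1)).biUnion fun g' =>
        ((Finset.univ : Finset D).filter fun s => T.len (T.dir s * g') = k + 2).image
          fun s => T.dir s * g' := by
      intro g hg
      rw [mem_sph] at hg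
      obtain ⟨s, g', h1, h2⟩ := T.exists_pred hg
      rw [Finset.mem_biUnion]
      refine ⟨g', T.mem_sph.2 h2, Finset.mem_image.2 ⟨s, ?_, h1.symm⟩⟩
      rw [Finset.mem_filter]
      refine ⟨Finset.mem_univ _, ?_⟩
      rw [← h1, hg]
    have hcard : ∀ g' ∈ T.sph (k + 1),
        (((Finset.univ : Finset D).filter fun s => T.len (T.dir s * g') = k + 2).image
          fun s => T.dir s * g').card ≤ Fintype.card D - 1 := by
      intro g' hg'
      rw [mem_sph] at hg'
      obtain ⟨s0, g'', h1, h2⟩ := T.exists_pred hg'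
      refine Finset.card_image_le.trans ?_
      have : ((Finset.univ : Finset D).filter fun s => T.len (T.dir s * g') = k + 2) ⊆
          Finset.univ.erase (T.inv s0) := by
        intro s hs
        rw [Finset.mem_filter] at hs
        rw [Finset.mem_erase]
        refine ⟨?_, Finset.mem_univ _⟩
        rintro rfl
        have h3 := hs.2
        rw [h1, T.dir_inv, inv_mul_cancel_left, h2] at h3
        omega
      calc _ ≤ (Finset.univ.erase (T.inv s0)).card := Finset.card_le_card this
        _ = Fintype.card D - 1 := by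
          rw [Finset.card_erase_of_mem (Finset.mem_univ _), Finset.card_univ]
    calc (T.sph (k + 2)).card ≤ _ := Finset.card_le_card hsub
      _ ≤ (T.sph (k + 1)).card * (Fintype.card D - 1) :=
        Finset.card_biUnion_le_card_mul _ _ _ hcard
      _ ≤ Fintype.card D * (Fintype.card D - 1) ^ k * (Fintype.card D - 1) :=
        Nat.mul_le_mul_right _ ih
      _ = _ := by rw [pow_succ, mul_assoc]

end TreeData

theorem measure_diff {G : Type} [Group G] {E : Set (Bern G)} (hE : MeasurableSet E) (g : G) :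
    bernP G {p | ¬ (shift g p.1 ∈ E ↔ shift g (upd 1 p) ∈ E)} = influence E g := by
  have h1 : {p : Bern G × unitInterval | ¬ (shift g p.1 ∈ E ↔ shift g (upd 1 p) ∈ E)} =
      (fun p : Bern G × unitInterval => (shift g p.1, p.2)) ⁻¹'
        {q | ¬ (q.1 ∈ E ↔ upd g q ∈ E)} := by
    ext p
    simp only [Set.mem_ofPred_eq, Set.mem_preimage]
    rw [shift_upd, mul_one]
  rw [h1, (measurePreserving_shiftP g).measure_preimage, influence_eq]
  have h2 : MeasurableSet {q : Bern G × unitInterval | q.1 ∈ E} := measurable_fst hE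
  have h3 : MeasurableSet {q : Bern G × unitInterval | upd g q ∈ E} := measurable_upd g hE
  exact (h2.iff h3).compl.nullMeasurableSet

theorem spread {G : Type} [Group G] [Countable G] {S : Set G} {D : Type} [Fintype D]
    (T : TreeData G S D) (E1 E2 : D → Set (Bern G))
    (hE1 : ∀ s, MeasurableSet (E1 s)) (hE2 : ∀ s, MeasurableSet (E2 s))
    (hu1 : ∀ᵐ x ∂(bern G), ∃! s, x ∈ E1 s) (hu2 : ∀ᵐ x ∂(bern G), ∃! s, x ∈ E2 s)
    (h12 : ∀ s x, x ∈ E1 s ↔ shift (T.dir s) x ∈ E2 (T.inv s)) :
    (∃ s0, bern G (E1 s0) = 1) ∨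
    ∃ c : ℝ≥0∞, 0 < c ∧ ∃ k0 : ℕ, ∀ k ≥ k0,
      c ≤ ∑ g ∈ T.sph k, ∑ s, (influence (E1 s) g + influence (E2 s) g) := by
  classical
  have h21 : ∀ s x, x ∈ E2 s ↔ shift (T.dir s) x ∈ E1 (T.inv s) := by
    intro s x
    rw [h12, ← shift_mul, T.dir_inv, inv_mul_cancel, shift_one, T.inv_inv]
  set W : G → Set (Bern G × unitInterval) := fun g =>
    ⋃ s, ({p | ¬ (shift g p.1 ∈ E1 s ↔ shift g (upd 1 p) ∈ E1 s)} ∪
      {p | ¬ (shift g p.1 ∈ E2 s ↔ shift g (upd 1 p) ∈ E2 s)}) with hW
  have hWmeas : ∀ g, bernP G (W g) ≤ ∑ s, (influence (E1 s) g + influence (E2 s) g) := by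
    intro g
    calc bernP G (W g) ≤ ∑' s, bernP G ({p | ¬ (shift g p.1 ∈ E1 s ↔ shift g (upd 1 p) ∈ E1 s)} ∪
          {p | ¬ (shift g p.1 ∈ E2 s ↔ shift g (upd 1 p) ∈ E2 s)}) := measure_iUnion_le _
      _ = ∑ s, bernP G ({p | ¬ (shift g p.1 ∈ E1 s ↔ shift g (upd 1 p) ∈ E1 s)} ∪
          {p | ¬ (shift g p.1 ∈ E2 s ↔ shift g (upd 1 p) ∈ E2 s)}) := tsum_fintype _
      _ ≤ _ := by
        refine Finset.sum_le_sum fun s _ => ?_
        rw [← measure_diff (hE1 s) g, ← measure_diff (hE2 s) g]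
        exact measure_union_le _ _
  -- the good points
  have hgood : ∀ᵐ p ∂(bernP G), (∀ g, ∃! s, shift g p.1 ∈ E1 s) ∧ (∀ g, ∃! s, shift g p.1 ∈ E2 s) ∧
      (∀ g, ∃! s, shift g (upd 1 p) ∈ E1 s) ∧ (∀ g, ∃! s, shift g (upd 1 p) ∈ E2 s) := by
    have a1 := measurePreserving_fstP.quasiMeasurePreserving.ae (ae_forall_shift hu1)
    have a2 := measurePreserving_fstP.quasiMeasurePreserving.ae (ae_forall_shift hu2)
    have a3 := (measurePreserving_upd (1 : G)).quasiMeasurePreserving.ae (ae_forall_shift hu1)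
    have a4 := (measurePreserving_upd (1 : G)).quasiMeasurePreserving.ae (ae_forall_shift hu2)
    filter_upwards [a1, a2, a3, a4] with p b1 b2 b3 b4
    exact ⟨b1, b2, b3, b4⟩
  -- propagation
  have hprop : ∀ᵐ p ∂(bernP G), ∀ g, p ∈ W g → ∃ g', T.len g' = T.len g + 1 ∧ p ∈ W g' := by
    filter_upwards [hgood] with p hp g hg
    obtain ⟨b1, b2, b3, b4⟩ := hp
    have key : ∀ (F1 F2 : D → Set (Bern G)),
        (∀ s x, x ∈ F1 s ↔ shift (T.dir s) x ∈ F2 (T.inv s)) →
        (∃! s, shift g p.1 ∈ F1 s) → (∃! s, shift g (upd 1 p) ∈ F1 s) →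
        (∀ s g', ¬ (shift g' p.1 ∈ F2 s ↔ shift g' (upd 1 p) ∈ F2 s) → p ∈ W g') →
        (∃ s, ¬ (shift g p.1 ∈ F1 s ↔ shift g (upd 1 p) ∈ F1 s)) →
        ∃ g', T.len g' = T.len g + 1 ∧ p ∈ W g' := by
      intro F1 F2 hF ⟨s, hs, hs'⟩ ⟨t, ht, ht'⟩ hin ⟨u, hu⟩
      have hst : s ≠ t := by
        rintro rfl
        apply hu
        constructor
        · intro h; rw [hs' u h]; exact ht
        · intro h; rw [ht' u h]; exact hs
      have ht1 : shift g p.1 ∉ F1 t := fun h => hst (hs' t h).symm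
      have hs1 : shift g (upd 1 p) ∉ F1 s := fun h => hst (ht' s h)
      have hsW : p ∈ W (T.dir s * g) := by
        apply hin (T.inv s)
        rw [shift_mul, shift_mul, ← hF, ← hF]
        tauto
      have htW : p ∈ W (T.dir t * g) := by
        apply hin (T.inv t)
        rw [shift_mul, shift_mul, ← hF, ← hF]
        tauto
      rcases T.up g s t hst with h | h
      · exact ⟨_, le_antisymm (T.len_mul_le s g) h, hsW⟩
      · exact ⟨_, le_antisymm (T.len_mul_le t g) h, htW⟩
    rw [hW, Set.mem_iUnion] at hg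
    obtain ⟨s, hs | hs⟩ := hg
    · exact key E1 E2 h12 (b1 g) (b3 g) (fun s g' h => Set.mem_iUnion.2 ⟨s, Or.inr h⟩) ⟨s, hs⟩
    · exact key E2 E1 h21 (b2 g) (b4 g) (fun s g' h => Set.mem_iUnion.2 ⟨s, Or.inl h⟩) ⟨s, hs⟩
  by_cases hnull : ∀ g, bernP G (W g) = 0
  · left
    have hinf : ∀ s g, influence (E1 s) g = 0 := by
      intro s g
      rw [← measure_diff (hE1 s) g]
      refine measure_mono_null ?_ (hnull g)
      intro p hp
      exact Set.mem_iUnion.2 ⟨s, Or.inl hp⟩
    by_contra hcon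
    push Not at hcon
    have hzero : ∀ s, bern G (E1 s) = 0 := fun s =>
      (zero_one (hE1 s) (hinf s)).resolve_right (hcon s)
    have hall : ∀ᵐ x ∂(bern G), ∀ s, x ∉ E1 s := by
      rw [ae_all_iff]
      intro s
      exact measure_eq_zero_iff_ae_notMem.1 (hzero s)
    have hF : ∀ᵐ x ∂(bern G), False := by
      filter_upwards [hall, hu1] with x h1 h2
      obtain ⟨s, hs, _⟩ := h2
      exact h1 s hs
    rw [ae_iff] at hF
    simp at hF
  · right
    push Not at hnull
    obtain ⟨g0, hg0⟩ := hnull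
    refine ⟨bernP G (W g0), pos_iff_ne_zero.2 hg0, T.len g0, fun k hk => ?_⟩
    have hprop' : ∀ᵐ p ∂(bernP G), p ∈ W g0 → p ∈ ⋃ g ∈ T.sph k, W g := by
      filter_upwards [hprop] with p hp h0
      have : ∀ n, ∃ g', T.len g' = T.len g0 + n ∧ p ∈ W g' := by
        intro n
        induction n with
        | zero => exact ⟨g0, rfl, h0⟩
        | succ n ih =>
          obtain ⟨g', h1, h2⟩ := ih
          obtain ⟨g'', h3, h4⟩ := hp g' h2
          exact ⟨g'', by omega, h4⟩
      obtain ⟨g', h1, h2⟩ := this (k - T.len g0)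
      rw [Set.mem_iUnion₂]
      exact ⟨g', T.mem_sph.2 (by omega), h2⟩
    calc bernP G (W g0) ≤ bernP G (⋃ g ∈ T.sph k, W g) := measure_mono_ae hprop'
      _ ≤ ∑ g ∈ T.sph k, bernP G (W g) := measure_biUnion_finset_le _ _
      _ ≤ _ := Finset.sum_le_sum fun g _ => hWmeas g

end Pool.Agent.Helper58.Orb
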